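import Pool.Agent.H752.GM.Stubs
import Pool.Agent.H673R2.OneTT.Kset

/-!
# S0: a complete set for `NP` relative to an oracle
-/

namespace Pool.Agent.H752.GM

namespace S0

section
open Pool.Agent.NPC Pool.Agent.H673R2.OneTT Pool.Agent.H660R2.NX Pool.Agent.H628R3.RO
  Pool.Agent.H673R2.OneOne

/-- The set `KA A` is complete for `NP` relative to `A` under reductions computable in polynomial
time without the oracle. -/
theorem hard_KA' (A : Oracle) (L : Set (List Bool)) (hL : H628R3.RO.IsNP A L) :
    ∃ g, PolyTime g ∧ ∀ x, x ∈ L ↔ g x ∈ KA A := by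
  obtain ⟨V, p, hV, hLV⟩ := hL
  -- the verifier checks the length of the witness
  have h2 : H628R3.RO.IsFP A (fun t => pairBits (V t) t) := H628R3.RO.IsFP.pair hV (H628R3.RO.IsFP.of_poly Poly.id)
  have h3 : Poly (fun t : List Bool => [decide ((unpair t).1 = [true]) &&
      decide ((unpair (unpair t).2).2.length ≤ p.eval (unpair (unpair t).2).1.length)]) := by
    have h4 : Poly (fun t : List Bool => (unpair t).2) := Poly.snd poly_unpair
    have h5 : Poly (fun t : List Bool => (unpair (unpair t).2).1) :=
      Poly.fst (poly_unpair.comp h4)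
    have h6 : Poly (fun t : List Bool => (unpair (unpair t).2).2) :=
      Poly.snd (poly_unpair.comp h4)
    exact Poly.cons (Poly.and (Poly.decide_eq (Poly.fst poly_unpair) (NPC.Poly.const [true]))
      (Poly.decide_le (Poly.length h6) (UPoly.eval (UPoly.length h5) p).toPoly))
      (NPC.Poly.const [])
  have h4 := H628R3.RO.IsFP.comp (H628R3.RO.IsFP.of_poly (A := A) h3) h2
  simp only [unpair_pairBits] at h4
  obtain ⟨M, hM⟩ := h4
  beta_reduce at hM
  obtain ⟨e, pe, he⟩ := U_complete M.poly
  have hcode : IsCode e M.D pe := he
  -- the time bound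
  set b1 : Polynomial ℕ := 2 * Polynomial.X + 1 + p with hb1
  set b2 : Polynomial ℕ := M.p.comp b1 with hb2
  set bm : Polynomial ℕ := b2 + pe.comp (2 * b1 + 1 + b2) + p with hbm
  refine ⟨fun u => insK e u (bm.eval u.length), ?_, fun u => ?_⟩
  · apply H622R2.polyTime_of_poly_list
    unfold insK
    exact H622R2.poly_pairBits (NPC.Poly.const _) (H622R2.poly_pairBits Poly.id
      (p_replicate (UPoly.eval (UPoly.length Poly.id) bm) true))
  · rw [hLV]
    unfold KA
    simp only [Set.mem_ofPred_eq]
    constructor
    · rintro ⟨w, hw, hVw⟩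
      refine ⟨w, ?_, ?_⟩
      · have h5 := le_length_insK e u (bm.eval u.length)
        have h6 : p.eval u.length ≤ (insK e u (bm.eval u.length)).length := by
          refine le_trans ?_ h5
          rw [hbm, Polynomial.eval_add]
          omega
        exact hw.trans h6
      · have h5 := hM (pairBits u w)
        have h6 : (pairBits u w).length ≤ b1.eval u.length := by
          rw [H628R3.RO.length_pairBits, hb1]
          simp only [Polynomial.eval_add, Polynomial.eval_mul, Polynomial.eval_X,
            Polynomial.eval_one, Polynomial.eval_ofNat]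
          omega
        have h7 : M.p.eval (pairBits u w).length ≤ b2.eval u.length := by
          rw [hb2, Polynomial.eval_comp]
          exact eval_mono _ h6
        have h8 : M.out A (pairBits u w) = some [true] := by
          rw [h5, unpair_pairBits]
          simp [hVw, hw]
        unfold Alg.out at h8
        have h9 : bm.eval u.length = b2.eval u.length +
            (pe.comp (2 * b1 + 1 + b2)).eval u.length + p.eval u.length := by
          rw [hbm, Polynomial.eval_add, Polynomial.eval_add]
        have h10 : uA.p.eval (pairBits (insK e u (bm.eval u.length)) w).length =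
            (pairBits (insK e u (bm.eval u.length)) w).length + 1 := by
          show (Polynomial.X + 1 : Polynomial ℕ).eval _ = _
          simp
        unfold Alg.out
        refine uA_complete hcode (B := M.p.eval (pairBits u w).length) (by omega) ?_ _ _ (by simp)
          h8 _ ?_
        · intro a ha
          refine le_trans (eval_mono pe (n := (2 * b1 + 1 + b2).eval u.length) ?_) ?_
          · rw [H628R3.RO.length_pairBits]
            simp only [Polynomial.eval_add, Polynomial.eval_mul,
              Polynomial.eval_one, Polynomial.eval_ofNat]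
            omega
          · rw [← Polynomial.eval_comp]
            omega
        · rw [h10, H628R3.RO.length_pairBits]
          have h11 := le_length_insK e u (bm.eval u.length)
          omega
    · rintro ⟨w, -, h5⟩
      obtain ⟨n', h6⟩ := uA_sound hcode _ _ h5
      have h7 := hM (pairBits u w)
      unfold Alg.out at h7
      have h8 := run_det M A _ _ _ _ _ _ h6 h7
      rw [unpair_pairBits] at h8
      simp only [List.cons.injEq, and_true] at h8
      have h9 := h8.symm
      simp only [Bool.and_eq_true, decide_eq_true_eq] at h9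
      exact ⟨w, h9.2, h9.1⟩


end

open Pool.Agent.NPC Pool.Agent.H620R2.Gauge Pool.Agent.H660R2.NX

/-- the same algorithm in the other library -/
def toRO (M : Alg) : H628R3.RO.Alg := ⟨M.D, M.poly, M.p⟩

/-- the same algorithm in this library -/
def ofRO (M : H628R3.RO.Alg) : Alg := ⟨M.D, M.poly, M.p⟩

theorem run_toRO (M : Alg) (A : Oracle) (x : List Bool) : ∀ (n : ℕ) (a : List Bool),
    (toRO M).run A x n a = M.run A x n a := by
  intro n
  induction n with
  | zero => intro a; rfl
  | succ n ih =>
    intro a
    rw [Alg.run, H628R3.RO.Alg.run]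
    show (match M.D (pairBits x a) with | [] => _ | true :: z => _ | false :: q => _) = _
    rcases M.D (pairBits x a) with _ | ⟨c, q⟩
    · rfl
    · cases c with
      | true => rfl
      | false => exact ih _

theorem run_ofRO (M : H628R3.RO.Alg) (A : Oracle) (x : List Bool) : ∀ (n : ℕ) (a : List Bool),
    (ofRO M).run A x n a = M.run A x n a := by
  intro n
  induction n with
  | zero => intro a; rfl
  | succ n ih =>
    intro a
    rw [Alg.run, H628R3.RO.Alg.run]
    show (match M.D (pairBits x a) with | [] => _ | true :: z => _ | false :: q => _) = _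
    rcases M.D (pairBits x a) with _ | ⟨c, q⟩
    · rfl
    · cases c with
      | true => rfl
      | false => exact ih _

theorem isFP_toRO {A : Oracle} {F : List Bool → List Bool} (h : IsFP A F) :
    H628R3.RO.IsFP A F := by
  obtain ⟨M, hM⟩ := h
  refine ⟨toRO M, fun x => ?_⟩
  rw [← hM x]
  exact run_toRO M A x _ _

theorem isFP_ofRO {A : Oracle} {F : List Bool → List Bool} (h : H628R3.RO.IsFP A F) :
    IsFP A F := by
  obtain ⟨M, hM⟩ := h
  refine ⟨ofRO M, fun x => ?_⟩
  rw [← hM x]
  exact run_ofRO M A x _ _

/-- exchange the two components -/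
def swp (y : List Bool) : List Bool := pairBits (unpair y).2 (unpair y).1

theorem poly_swp : Poly swp :=
  H622R2.poly_pairBits (Poly.snd poly_unpair) (Poly.fst poly_unpair)

theorem swp_pair (x w : List Bool) : swp (pairBits x w) = pairBits w x := by
  unfold swp
  rw [unpair_pairBits]

theorem isNP_toRO {A : Oracle} {L : Set (List Bool)} (h : IsNP A L) : H628R3.RO.IsNP A L := by
  obtain ⟨V, p, hV, hL⟩ := h
  refine ⟨fun y => V (swp y), p, ?_, fun x => ?_⟩
  · exact H628R3.RO.IsFP.comp (isFP_toRO hV) (H628R3.RO.IsFP.of_poly poly_swp)
  · simp only [swp_pair]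
    exact hL x

theorem isNP_ofRO {A : Oracle} {L : Set (List Bool)} (h : H628R3.RO.IsNP A L) : IsNP A L := by
  obtain ⟨V, p, hV, hL⟩ := h
  refine ⟨fun y => V (swp y), p, ?_, fun x => ?_⟩
  · exact isFP_ofRO (H628R3.RO.IsFP.comp hV (H628R3.RO.IsFP.of_poly poly_swp))
  · simp only [swp_pair]
    exact hL x


end S0

open Pool.Agent.NPC Pool.Agent.H620R2.Gauge in
theorem t_complete : St_complete := by
  intro A
  refine ⟨H673R2.OneTT.KA A, S0.isNP_ofRO (H673R2.OneTT.isNP_KA A), fun L hL => ?_⟩
  exact S0.hard_KA' A L (S0.isNP_toRO hL)

end Pool.Agent.H752.GM
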